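import Mathlib

set_option autoImplicit false

namespace Pool.Agent.Results.MP_628ecd_an.SSNC

open Filter Topology Metric Finset
open scoped ENNReal

def StrictlySingular {E : Type} [NormedAddCommGroup E] [NormedSpace ℂ E] (T : E →L[ℂ] E) : Prop :=
  ¬ ∃ (M : Submodule ℂ E) (c : ℝ), IsClosed (M : Set E) ∧ ¬ FiniteDimensional ℂ M ∧ 0 < c ∧
    ∀ x ∈ M, c * ‖x‖ ≤ ‖T x‖

abbrev X := lp (fun _ : ℕ => ℂ) 1 × lp (fun _ : ℕ => ℂ) ∞

noncomputable def co (x : X) (n : ℕ) : ℂ :=
  if n % 2 = 1 then x.1 (n / 2) else x.2 (n / 2) / 2 ^ (n / 2)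

lemma co_add (x y : X) (n : ℕ) : co (x + y) n = co x n + co y n := by
  unfold co; split_ifs <;> simp [add_div]

lemma co_smul (c : ℂ) (x : X) (n : ℕ) : co (c • x) n = c * co x n := by
  unfold co; split_ifs <;> simp [mul_div_assoc]

lemma le1 (x : X) (k : ℕ) : ‖x.1 k‖ ≤ ‖x.1‖ := lp.norm_apply_le_norm one_ne_zero _ _

lemma le2 (x : X) (k : ℕ) : ‖x.2 k / 2 ^ k‖ ≤ ‖x‖ * (1 / 2) ^ k := by
  rw [norm_div, norm_pow, Complex.norm_two, one_div, inv_pow, div_eq_mul_inv]
  gcongr
  exact (lp.norm_apply_le_norm ENNReal.top_ne_zero _ _).trans (norm_snd_le x)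

lemma co_le (x : X) (n : ℕ) : ‖co x n‖ ≤ ‖x‖ := by
  unfold co
  split_ifs
  · exact (le1 x _).trans (norm_fst_le x)
  · exact (le2 x _).trans (mul_le_of_le_one_right (norm_nonneg _)
      (pow_le_one₀ (by norm_num) (by norm_num)))

lemma bd (x : X) (z : ℂ) (n : ℕ) : ‖co x n * z ^ n‖ ≤ ‖x‖ * ‖z‖ ^ n := by
  rw [norm_mul, norm_pow]
  gcongr
  exact co_le x n

lemma sm (x : X) (z : ℂ) (h : ‖z‖ < 1) : Summable fun n => co x n * z ^ n :=
  .of_norm_bounded ((summable_geometric_of_lt_one (norm_nonneg _) h).mul_left ‖x‖) (bd x z)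

noncomputable def ev (z : ℂ) : X →L[ℂ] ℂ :=
  if h : ‖z‖ < 1 then LinearMap.mkContinuous
    { toFun x := ∑' n, co x n * z ^ n
      map_add' x y := by simp only [co_add, add_mul, (sm x z h).tsum_add (sm y z h)]
      map_smul' c x := by simp only [co_smul, mul_assoc, tsum_mul_left, RingHom.id_apply, smul_eq_mul] }
    (1 - ‖z‖)⁻¹ fun x => by
      rw [mul_comm]
      exact tsum_of_norm_bounded ((hasSum_geometric_of_lt_one (norm_nonneg _) h).mul_left ‖x‖)
        (bd x z)
  else 0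

lemma ev_eq (z : ℂ) (h : ‖z‖ < 1) (x : X) : ev z x = ∑' n, co x n * z ^ n := by
  simp [ev, h]

lemma ps (x : X) : HasFPowerSeriesOnBall (fun z => ev z x)
    (FormalMultilinearSeries.ofScalars ℂ (co x)) 0 1 := by
  have h1 : (1 : ℝ≥0∞) ≤ (FormalMultilinearSeries.ofScalars ℂ (co x)).radius :=
    FormalMultilinearSeries.le_radius_of_bound _ ‖x‖ (r := 1) fun n => by
      simpa [FormalMultilinearSeries.ofScalars_norm] using co_le x n
  refine ⟨h1, one_pos, fun {y} hy => ?_⟩
  have h2 : ‖y‖ < 1 := by simpa [← ofReal_norm] using hy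
  simpa [ev_eq y h2, FormalMultilinearSeries.ofScalars_apply_eq, mul_comm] using (sm x y h2).hasSum

noncomputable def T : X →L[ℂ] X := LinearMap.mkContinuous
  { toFun x := (0, ⟨co x, memℓp_infty ⟨‖x‖, by rintro _ ⟨n, rfl⟩; exact co_le x n⟩⟩)
    map_add' x y := Prod.ext (by simp) (lp.ext (funext fun n => co_add x y n))
    map_smul' c x := Prod.ext (by simp) (lp.ext (funext fun n => co_smul c x n)) } 1 fun x => by
  simp only [LinearMap.coe_mk, AddHom.coe_mk, Prod.norm_mk, norm_zero, one_mul, max_le_iff,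
    norm_nonneg, true_and]
  exact lp.norm_le_of_forall_le (norm_nonneg _) (co_le x)

lemma T_le (x : X) (C : ℝ) (h : ∀ n, ‖co x n‖ ≤ C) : ‖T x‖ ≤ C := by
  have h0 := (norm_nonneg _).trans (h 0)
  exact max_le (by simpa [T] using h0) (lp.norm_le_of_forall_le h0 h)

lemma T_ge (x : X) (n : ℕ) : ‖co x n‖ ≤ ‖T x‖ :=
  (lp.norm_apply_le_norm ENNReal.top_ne_zero (T x).2 n).trans (norm_snd_le _)

lemma comp (x : X) (z : ℂ) (h : ‖z‖ < 1) (h2 : ‖z ^ 2 / 2‖ < 1) :
    ev z (T x) = ev (z ^ 2 / 2) x := by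
  rw [ev_eq z h, ev_eq _ h2, ← (mul_right_injective₀ (two_ne_zero (α := ℕ))).tsum_eq]
  · refine tsum_congr fun k => ?_
    rw [co, if_neg (by omega), show 2 * k / 2 = k by omega, pow_mul, div_pow]
    change co x k / _ * _ = _
    ring
  · intro n hn
    by_contra hc
    have : n % 2 = 1 := by
      by_contra h3
      exact hc ⟨n / 2, by simp only; omega⟩
    simp [co, this, T] at hn

lemma hs (a : lp (fun _ : ℕ => ℂ) 1) : HasSum (fun k => ‖a k‖) ‖a‖ := by
  simpa using lp.hasSum_norm (p := 1) (by simp) a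

lemma ss : StrictlySingular T := by
  rintro ⟨M, c, -, hM, hc, h⟩
  have hy : ∀ m : ℕ, ∃ y ∈ M, ‖y‖ = 1 ∧ ∀ n < m, co y n = 0 := by
    intro m
    let L : M →ₗ[ℂ] (Fin m → ℂ) :=
      { toFun x i := co x i
        map_add' x y := funext fun i => co_add _ _ _
        map_smul' c x := funext fun i => co_smul _ _ _ }
    obtain ⟨y, h1, h2⟩ : ∃ y : M, L y = 0 ∧ y ≠ 0 := by
      by_contra hc
      push Not at hc
      exact hM (FiniteDimensional.of_injective L ((injective_iff_map_eq_zero L).mpr hc))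
    have h3 : ‖(y : X)‖ ≠ 0 := by simpa using h2
    refine ⟨(‖(y : X)‖⁻¹ : ℂ) • y, M.smul_mem _ y.2, by simp [norm_smul, h3], fun n hn => ?_⟩
    rw [co_smul, show co y n = 0 from congrFun h1 ⟨n, hn⟩, mul_zero]
  have key : ∀ N : ℕ, ∃ x ∈ M, N * (c / 4) ≤ ‖x.1‖ ∧ ∀ n, ‖co x n‖ ≤ 2 - (1 / 2) ^ N := by
    intro N
    induction N with
    | zero => exact ⟨0, M.zero_mem, by simp, fun n => (co_le _ n).trans (by norm_num)⟩
    | succ N ih =>
      obtain ⟨x, hx, h1, h2⟩ := ih
      set ε := min (c / 8) ((1 / 2) ^ (N + 1)) with hε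
      have e0 : 0 < ε := by positivity
      have e1 : ε ≤ c / 8 := min_le_left _ _
      have e2 : ε ≤ (1 / 2) ^ (N + 1) := min_le_right _ _
      have e3 : (1 / 2 : ℝ) ^ (N + 1) ≤ 1 / 2 := pow_le_of_le_one (by norm_num) (by norm_num) (by omega)
      obtain ⟨m, m1, m2⟩ := (((tendsto_sum_nat_add fun k => ‖x.1 k‖).eventually_le_const e0).and
        ((tendsto_pow_atTop_nhds_zero_of_lt_one (r := (1 / 2 : ℝ)) (by norm_num)
          (by norm_num)).eventually_le_const e0)).exists
      obtain ⟨y, hy, y1, y2⟩ := hy (2 * m)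
      have y3 : ∀ k < m, y.1 k = 0 := fun k hk => by
        simpa [co, show (2 * k + 1) % 2 = 1 by omega, show (2 * k + 1) / 2 = k by omega] using
          y2 (2 * k + 1) (by omega)
      have y4 : ∀ n, n % 2 ≠ 1 → ‖co y n‖ ≤ ε := fun n hn => by
        by_cases h3 : n < 2 * m
        · rw [y2 n h3, norm_zero]; exact e0.le
        · rw [co, if_neg hn]
          refine (le2 y _).trans ?_
          rw [y1, one_mul]
          exact (pow_le_pow_of_le_one (by norm_num) (by norm_num) (by omega)).trans m2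
      have y5 : c ≤ ‖y.1‖ + ε := by
        have := h y hy
        rw [y1, mul_one] at this
        refine this.trans (T_le _ _ fun n => ?_)
        by_cases hn : n % 2 = 1
        · rw [co, if_pos hn]; linarith [le1 y (n / 2)]
        · linarith [y4 n hn, norm_nonneg y.1]
      have tl : HasSum (fun k => if k < m then 0 else ‖x.1 k‖) (∑' k, ‖x.1 (k + m)‖) := by
        rw [← hasSum_nat_add_iff' m, sum_eq_zero fun i hi => if_pos (mem_range.mp hi), sub_zero]
        simpa using ((summable_nat_add_iff m).mpr (hs x.1).summable).hasSum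
      refine ⟨x + y, M.add_mem hx hy, ?_, fun n => ?_⟩
      · have := hasSum_le (fun k => ?_) ((hs x.1).add (hs y.1)) ((hs (x + y).1).add (tl.mul_left 2))
        · push_cast; linarith
        · simp only [Prod.fst_add, lp.coeFn_add, Pi.add_apply]
          split_ifs with hk
          · simp [y3 k hk]
          · have := norm_sub_le (x.1 k + y.1 k) (x.1 k)
            rw [add_sub_cancel_left] at this
            linarith
      · rw [co_add]
        have e4 := pow_succ (1 / 2 : ℝ) N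
        by_cases h3 : n < 2 * m
        · rw [y2 n h3, add_zero]; linarith [h2 n]
        by_cases hn : n % 2 = 1
        · have := le_hasSum tl (n / 2) fun k _ => by split_ifs <;> positivity
          rw [if_neg (by omega)] at this
          have h5 : ‖co x n‖ = ‖x.1 (n / 2)‖ := by rw [co, if_pos hn]
          linarith [norm_add_le (co x n) (co y n), co_le y n]
        · linarith [norm_add_le (co x n) (co y n), y4 n hn, h2 n]
  obtain ⟨N, hN⟩ := exists_nat_gt (2 / (c * (c / 4)))
  obtain ⟨x, hx, h1, h2⟩ := key N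
  have h3 := (h x hx).trans (T_le x 2 fun n => (h2 n).trans (sub_le_self _ (by positivity)))
  rw [div_lt_iff₀ (by positivity)] at hN
  nlinarith [mul_le_mul_of_nonneg_left (h1.trans (norm_fst_le x)) hc.le]

lemma nc : ¬ IsCompactOperator T := by
  intro h
  let e : ℕ → X := fun k => (lp.single 1 k 1, 0)
  obtain ⟨K, hK, h1⟩ := IsCompactOperator.image_closedBall_subset_compact (f := T.toLinearMap) h 1
  obtain ⟨a, -, s, hs, h2⟩ := hK.tendsto_subseq (x := fun k => T (e k)) fun k =>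
    h1 ⟨e k, by simp [e, lp.norm_single], rfl⟩
  obtain ⟨N, hN⟩ := Metric.cauchySeq_iff'.mp h2.cauchySeq 1 one_pos
  have h3 := hN (N + 1) N.le_succ
  rw [dist_eq_norm, Function.comp_apply, Function.comp_apply, ← map_sub] at h3
  have h4 := T_ge (e (s (N + 1)) - e (s N)) (2 * s N + 1)
  have h5 : s N ≠ s (N + 1) := (hs N.lt_succ_self).ne
  rw [co, if_pos (by omega), show (2 * s N + 1) / 2 = s N by omega] at h4
  simp [e, lp.single_apply, Pi.single_apply, h5] at h4
  simp [e] at h3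
  linarith

theorem result : ∃ (E : Type) (_ : NormedAddCommGroup E) (_ : NormedSpace ℂ E)
    (_ : CompleteSpace E) (ev : ℂ → E →L[ℂ] ℂ) (φ : ℂ → ℂ) (C : E →L[ℂ] E),
    (∀ f, AnalyticOnNhd ℂ (fun z => ev z f) (ball 0 1)) ∧
    (∀ f, (∀ z ∈ ball (0 : ℂ) 1, ev z f = 0) → f = 0) ∧
    AnalyticOnNhd ℂ φ (ball 0 1) ∧ Set.MapsTo φ (ball 0 1) (ball 0 1) ∧
    (∀ f, ∀ z ∈ ball (0 : ℂ) 1, ev z (C f) = ev (φ z) f) ∧
    StrictlySingular C ∧ ¬ IsCompactOperator C := by
  have hm : ∀ z : ℂ, ‖z‖ < 1 → ‖z ^ 2 / 2‖ < 1 := fun z hz => by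
    rw [norm_div, norm_pow, Complex.norm_two]
    nlinarith [norm_nonneg z]
  refine ⟨X, inferInstance, inferInstance, inferInstance, ev, fun z => z ^ 2 / 2, T, fun f => ?_,
    fun f hf => ?_, fun z _ => by fun_prop, fun z hz => ?_, fun f z hz => ?_, ss, nc⟩
  · simpa [← Metric.eball_ofReal] using (ps f).analyticOnNhd
  · have h1 := (ps f).hasFPowerSeriesAt.eq_zero_of_eventually
      (eventually_of_mem (ball_mem_nhds 0 one_pos) hf)
    rw [FormalMultilinearSeries.ofScalars_series_eq_zero] at h1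
    refine Prod.ext (lp.ext (funext fun k => ?_)) (lp.ext (funext fun k => ?_))
    · simpa [co, show (2 * k + 1) % 2 = 1 by omega, show (2 * k + 1) / 2 = k by omega] using
        congrFun h1 (2 * k + 1)
    · simpa [co] using congrFun h1 (2 * k)
  · simpa using hm z (by simpa using hz)
  · exact comp f z (by simpa using hz) (hm z (by simpa using hz))

end Pool.Agent.Results.MP_628ecd_an.SSNC
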